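import Pool.Agent.TH376.TC.FrobC

/-!
# Semisimplicity of Frobenius for complete varieties and compactifications of cubics

Let `E_g` be the hypersurface `g_0 t_0 + ⋯ + g_r t_r = 0` in `𝔸^(n+r+1)`. The homology of a smooth
projective variety `V` is contained, up to a Tate twist, in the part of lowest weight of the homology
of such a hypersurface, and this part is a quotient of the part of lowest weight of the homology of
any compactification `Y` of `E_g` (for instance of its projective closure, a cubic hypersurface). So
the cohomology of `V` is a subquotient of the cohomology of the complete variety `Y`.
-/

set_option autoImplicit false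

open CategoryTheory CategoryTheory.Limits AlgebraicGeometry Pool.Agent.TH90.Cub
  Pool.Agent.TH376.TC

namespace Pool.Agent.Results.MP_b685ef_ag.CompactificationsOfCubics

/-- **Semisimplicity of Frobenius for complete varieties.** Let `S` be a set which contains `1` and
generates the finite field `k`. The following are equivalent (`Forms`): Frobenius acts semisimply
on the homology

(1) of all smooth projective varieties over `k`;

(2) of all complete varieties over `k`;

(3) of all complete varieties which contain one of the hypersurfaces `E_g`, given by
`g_0 t_0 + ⋯ + g_r t_r = 0`, as an open subscheme, each `g_i` being one of `x_a x_b - x_c`,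
`x_a + x_b - x_c`, `x_a - c` with `c` in `S`;

(4) of at least one complete variety `Y` which contains `E_g` as an open subscheme, for each of
these hypersurfaces `E_g`. -/
theorem result {k K : Type} [Field k] [Finite k] [Field K] [CharZero K] (T : WeightTheory k K)
    (hH : HProps T.toHMaps) (hF : T.Known) (hW : T.Weights) (S : Set k)
    (hS : Subfield.closure S = ⊤) (h1 : (1 : k) ∈ S) : (T.Forms S).TFAE :=
  WeightTheory.forms_tfae hH hF hW hS h1

end Pool.Agent.Results.MP_b685ef_ag.CompactificationsOfCubics
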