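import Pool.Agent.TH943.IP.Whole

/-!
Semisimplicity of Frobenius on the cohomology of explicit complete varieties of every dimension: the
cyclic coverings of projective space branched along `f(x_n) ∏ (x_i - h_i(x_(i-1))) = 0` and the
hyperplane at infinity.
-/

set_option autoImplicit false
set_option maxHeartbeats 1000000

open Polynomial

namespace Pool.Agent.Results.MP_b685ef_ag.IteratedPullbacks

section defs

variable {κ : Type} [Field κ]

/-- The composition `f(h_n(... h_1(x)))`; here `h_1` is `h 0`. -/
noncomputable def composite : (n : ℕ) → (Fin n → κ[X]) → κ[X] → κ[X]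
  | 0, _, f => f
  | n + 1, h, f => (composite n (fun i => h i.succ) f).comp (h 0)

/-- The value of the function `f(x_n) ^ c ∏ (x_i - h_i(x_(i-1))) ^ b_i`, product over `i = 1, ..., n`,
at the point `x = (x_0, ..., x_n)` of the affine space of dimension `n + 1` over `L`. -/
noncomputable def value {n : ℕ} (L : Type) [Field L] [Algebra κ L] (h : Fin n → κ[X]) (f : κ[X])
    (b : Fin n → ℕ) (c : ℕ) (x : Fin (n + 1) → L) : L :=
  (aeval (x (Fin.last n)) f) ^ c * ∏ i : Fin n, (x i.succ - aeval (x i.castSucc) (h i)) ^ b i

/-- The number of points over `L` of the open set `U` of affine space where the function is not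
zero. -/
noncomputable def openCount {n : ℕ} (L : Type) [Field L] [Algebra κ L] (h : Fin n → κ[X])
    (f : κ[X]) (b : Fin n → ℕ) (c : ℕ) : ℕ :=
  Set.ncard {x : Fin (n + 1) → L | value L h f b c x ≠ 0}

/-- The number of points over `L` of `U` where the power of the function with exponent
`(|L| - 1) / N` is `z ^ i`. -/
noncomputable def fixCount {n : ℕ} (L : Type) [Field L] [Fintype L] [Algebra κ L]
    (h : Fin n → κ[X]) (f : κ[X]) (b : Fin n → ℕ) (c N : ℕ) (z : κ) (i : ℕ) : ℕ :=
  Set.ncard {x : Fin (n + 1) → L | value L h f b c x ≠ 0 ∧
    (value L h f b c x) ^ ((Fintype.card L - 1) / N) = algebraMap κ L z ^ i}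

/-- The composition of all the polynomials is irreducible, its degree is not divisible by `p`, the
degrees of the `h_i` are not divisible by the characteristic of `κ`, and the exponents are not
divisible by `p`. -/
structure IsAdmissible (p : ℕ) {n : ℕ} (h : Fin n → κ[X]) (f : κ[X]) (b : Fin n → ℕ) (c : ℕ) :
    Prop where
  irreducible : Irreducible (composite n h f)
  degree : ¬ p ∣ (composite n h f).natDegree
  tame : ∀ i, ((h i).natDegree : κ) ≠ 0
  exponents : ∀ i, ¬ p ∣ b i
  exponent : ¬ p ∣ c

/-- `V` is the cohomology of degree `N = n + 2` of the complete covering `𝒳` of the projective space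
of dimension `N`, `Φ` is the Frobenius and `g` the automorphism of order `p ^ s` of the covering. -/
structure IsCohomology [Fintype κ] (p s : ℕ) (z : κ) {n : ℕ} (h : Fin (n + 1) → κ[X]) (f : κ[X])
    (b : Fin (n + 1) → ℕ) (c : ℕ) {E V : Type} [Field E] [AddCommGroup V] [Module E V]
    (Φ g : Module.End E V) : Prop where
  commute : Commute Φ g
  order : g ^ p ^ s = 1
  /-- the invariants are the cohomology of projective space -/
  invariants : ∀ v, g v = v → Φ v = (Fintype.card κ : E) ^ ((n + 2) / 2) • v
  /-- the number of fixed points of the composition of the Frobenius over `L` and `g ^ i`: one over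
  each point of projective space outside `U`, and `p ^ s` over each point counted by `fixCount` -/
  lefschetz : ∀ (L : Type) [Field L] [Fintype L] [Algebra κ L] (i : ℕ),
    (∑ k ∈ Finset.range (n + 3), if 2 * k = n + 2 then 0 else (Fintype.card L : E) ^ k) +
        (-1) ^ (n + 2) * LinearMap.trace E V (Φ ^ Module.finrank κ L * g ^ i) =
      ((∑ k ∈ Finset.range (n + 3), (Fintype.card L : E) ^ k) - (openCount L h f b c : E)) +
        (p : E) ^ s * (fixCount L h f b c (p ^ s) z i : E)
  /-- the dimension of the nontrivial eigenspaces, the Euler characteristic of `U` up to the sign -/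
  dimension : ∀ ω : E, ω ≠ 1 → ω ^ p ^ s = 1 → Module.finrank E (g.eigenspace ω) +
    (composite n (fun i => h i.succ) f).natDegree = (composite (n + 1) h f).natDegree

theorem composite_eq (n : ℕ) : ∀ (h : Fin n → κ[X]) (f : κ[X]),
    composite n h f = Pool.Agent.TH943.IP.cmp n h f := by
  induction n with
  | zero => intro h f; rfl
  | succ n ih =>
    intro h f
    show (composite n (fun i => h i.succ) f).comp (h 0) = _
    rw [ih]
    rfl

end defs

/-- **Semisimplicity of Frobenius on the cohomology of explicit complete varieties of every
dimension.**

Let `p` be a prime and `κ` a finite field with `q` elements which contains a primitive root of unity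
`z` of order `p ^ s`, `s ≥ 1`; `f` and `h_1, ..., h_(n+1)` polynomials over `κ`, `n ≥ 1`, such that
`f(h_(n+1)(... h_1(x)))` is irreducible of degree prime to `p`, the degrees of the `h_i` are prime to
the characteristic, and `c`, `b_i` positive integers prime to `p`. Let `N = n + 2 ≥ 3`, and let `U` be
the open set of the projective space of dimension `N` given in the affine space with the coordinates
`x_0, ..., x_(n+1)` by `G ≠ 0`, `G = f(x_(n+1)) ^ c ∏ (x_i - h_i(x_(i-1))) ^ b_i`; `F` a form of degree
divisible by `p ^ s` with `F = G` on the affine space and `F = 0` on the hyperplane at infinity; and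
`𝒳` the complete variety `v ^ (p ^ s) = F` of dimension `N`, in a weighted projective space, a covering
of projective space with one point over each point outside `U`.

For a prime `ℓ` prime to `q` and `E` an algebraic closure of the field of `ℓ`-adic numbers, the
cohomology of `𝒳` is the sum of that of the projective space and of the `H^i_c(U, L_χ)`, `χ` the
nontrivial characters of order dividing `p ^ s`. These are zero for `i ≠ N`: this is known for `i < N`,
as `U` is affine and smooth; for `i > N` one integrates over `x_0, x_1, ...`, and the sheaves that
appear have no coinvariants for the inertia at infinity (the characters of its tame quotient that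
appear are products of characters of `p`-power order with nontrivial characters of order prime to
`p`, or are equal to `χ ^ (b_1 deg h_1)` in the first step). So `IsCohomology` holds for
`V = H^N(𝒳, E)`, by the Grothendieck-Lefschetz formula; and the cohomology groups of other degrees
have dimension at most one.

Theorem: the Frobenius is semisimple on the cohomology of `𝒳`. The dimension of `V` is
`(p ^ s - 1) deg f deg h_(n+1) ... deg h_2 (deg h_1 - 1)`, plus one if `N` is even. For example `κ` with
`13` elements, `p = 3`, `f = x ^ 2 - 2`, all `h_i = x ^ 2`. -/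
theorem result (p s : ℕ) (hp : p.Prime) (hs : 1 ≤ s) (κ : Type) [Field κ] [Fintype κ] (z : κ)
    (hz : IsPrimitiveRoot z (p ^ s)) (n : ℕ) (_hn : 1 ≤ n) (h : Fin (n + 1) → κ[X]) (f : κ[X])
    (b : Fin (n + 1) → ℕ) (c : ℕ) (hadm : IsAdmissible p h f b c)
    (E V : Type) [Field E] [CharZero E] [IsAlgClosed E] [AddCommGroup V] [Module E V]
    [FiniteDimensional E V] (Φ g : Module.End E V) (hV : IsCohomology p s z h f b c Φ g) :
    Φ.IsSemisimple := by
  have hirr := hadm.irreducible
  have hdeg := hadm.degree
  have hdim := hV.dimension
  rw [composite_eq] at hirr hdeg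
  simp only [composite_eq] at hdim
  refine Pool.Agent.TH943.IP.whole_main hp hs κ hz h f (b := b) (c := c) ?_ ?_ hirr hdeg Φ g
    hV.commute hV.order hV.invariants hV.lefschetz hdim
  · intro i h0
    exact hadm.exponents i (by rw [h0]; exact dvd_zero p)
  · intro h0
    exact hadm.exponent (by rw [h0]; exact dvd_zero p)

end Pool.Agent.Results.MP_b685ef_ag.IteratedPullbacks
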