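import Pool.Agent.TH117.HS.Char

/-!
# Semisimplicity of Frobenius on singular cyclic coverings of projective space

Let `p` be a prime, `κ` a finite field with `q` elements that contains a primitive root of unity `z`
of order `p ^ s`, `F` a form in `n + 1` variables over `κ` whose degree is divisible by `p ^ s`, and
`𝒳 : y ^ (p ^ s) = F` the cyclic covering of projective space of dimension `n`, a complete variety
that may be singular. We assume that the cohomology groups of `𝒳` of degree different from `n` are
those of projective space. This holds for example if `F = ∏ F_i ^ (a_i)` with exponents `a_i` prime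
to `p` and a divisor `∏ F_i = 0` with normal crossings: then for all nontrivial characters of the
covering group the corresponding sheaf of rank one on the affine variety `U : F ≠ 0` has the same
cohomology with and without compact supports, which is zero outside the degree `n`. Let `E` be an
algebraic closure of the field of `ℓ`-adic numbers (`ℓ` prime to `q`; `ℓ = p` is allowed).

The zeta function of `U`, or its inverse, is the quotient of two polynomials `P₁`, `P₂` with integral
coefficients and constant term `1`: the number of points of `U` over an extension `L` of `κ` is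
`∑_{x ∈ B₁} x ^ [L : κ] - ∑_{x ∈ B₂} x ^ [L : κ]`, where `P_j = ∏_{x ∈ B_j} (1 - x T)` (Dwork).

Let `V = H^n(𝒳, E)` with the Frobenius `Φ` and the automorphism `g` of order `p ^ s` given by the
covering group. The number of fixed points of the composition of Frobenius over `L` and the `i`-th
power of the automorphism is given by the Grothendieck-Lefschetz formula `hfix`; these fixed points
are the points of `F = 0` over `L` and the `p ^ s` points over each point `v` of projective space
over `L` with `F(v) ^ ((|L| - 1) / p ^ s) = z ^ i` (`projFix`). The part of `V` that is fixed by `g`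
is the cohomology of projective space. For each root of unity `ω ≠ 1` with `ω ^ (p ^ s) = 1` the
dimension of the eigenspace of `g` for `ω` is, up to the sign, the Euler characteristic of `U`, that
is `deg P₁ - deg P₂` (if `n` is even), `deg P₂ - deg P₁` (if `n` is odd).

Theorem: if the quotient `H = P₁ / P₂` (if `n` is even), `H = P₂ / P₁` (if `n` is odd) modulo `p` is a
squarefree polynomial over the field with `p` elements whose degree is this dimension, then `Φ` is
semisimple on the cohomology of `𝒳` of degree `n`. (The other cohomology groups have dimension at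
most one.)
-/

namespace Pool.Agent.Results.MP_b685ef_ag.SingularCyclicCoverings

open Finset Polynomial Pool.Agent.W528.HS Pool.Agent.TH117.HS

theorem result (p s : ℕ) (hp : p.Prime) (κ : Type) [Field κ] [Fintype κ] (z : κ)
    (hz : IsPrimitiveRoot z (p ^ s)) (n : ℕ)
    (F : MvPolynomial (Fin (n + 1)) κ) (E : Type) [Field E] [CharZero E] [IsAlgClosed E]
    -- the zeta function of the complement of the branch locus
    (P₁ P₂ : ℤ[X]) (hP₁ : P₁.coeff 0 = 1) (hP₂ : P₂.coeff 0 = 1) (B₁ B₂ : Multiset E)
    (hB₁ : P₁.map (Int.castRingHom E) = (B₁.map fun x => 1 - C x * X).prod)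
    (hB₂ : P₂.map (Int.castRingHom E) = (B₂.map fun x => 1 - C x * X).prod)
    (hU : ∀ (L : Type) [Field L] [Fintype L] [Algebra κ L],
      (projOpen L (F.map (algebraMap κ L)) : E)
        = (B₁.map fun x => x ^ Module.finrank κ L).sum
          - (B₂.map fun x => x ^ Module.finrank κ L).sum)
    -- the cohomology of the covering
    (V : Type) [AddCommGroup V] [Module E V] [FiniteDimensional E V] (Φ g : Module.End E V)
    (hc : Commute Φ g) (hg : g ^ p ^ s = 1)
    (hinv : ∀ v, g v = v → Φ v = (Fintype.card κ : E) ^ (n / 2) • v)
    (hfix : ∀ (L : Type) [Field L] [Fintype L] [Algebra κ L] (i : ℕ),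
      (∑ k ∈ range (n + 1), if 2 * k = n then 0 else (Fintype.card L : E) ^ k) +
          (-1) ^ n * LinearMap.trace E V (Φ ^ Module.finrank κ L * g ^ i) =
        (projZero L (F.map (algebraMap κ L)) : E) +
          (p : E) ^ s * projFix L (p ^ s) (F.map (algebraMap κ L)) (algebraMap κ L z) i)
    -- the condition modulo `p`
    (H : (ZMod p)[X]) (hH : Squarefree H)
    (hdim : ∀ ω : E, ω ≠ 1 → ω ^ p ^ s = 1 → H.natDegree = Module.finrank E (g.eigenspace ω))
    (hev : Even n → H * P₂.map (Int.castRingHom (ZMod p)) = P₁.map (Int.castRingHom (ZMod p)))
    (hodd : Odd n → H * P₁.map (Int.castRingHom (ZMod p)) = P₂.map (Int.castRingHom (ZMod p))) :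
    Φ.IsSemisimple :=
  whole hp κ hz F P₁ P₂ hP₁ hP₂ B₁ B₂ hB₁ hB₂ hU Φ g hc hg hinv hfix H hH hdim hev hodd

end Pool.Agent.Results.MP_b685ef_ag.SingularCyclicCoverings
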